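import Pool.Agent.H77.Q.Defs
import Pool.Agent.H45.TR.Minor

set_option autoImplicit false

/-!
The side interface is inherited by the minors at a root (MP_a46c6f_co, full Q1, note 7214 (0)).
-/

namespace Pool.Agent.H69.Q

open Finset Pool.Agent.H98.Code Pool.Agent.H26.TR Pool.Agent.H45.TR Pool.Agent.H77.Q

variable {V : Type} [Fintype V] [DecidableEq V]
variable {L : Submodule (ZMod 2) (V → K)} {e : V} {D : V → K} {P Q : Finset (Finset V)}
  {h : Finset V → V}

/-- `u` is a lift of a word of the minor -/
def Lf (D : V → K) (Q : Finset (Finset V)) (h : Finset V → V) (u : V → K) : Prop :=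
  ∀ v, v ∉ Set.range (Subtype.val : W Q → V) → kf (u v) (sg D Q h v) = 0

/-- sides of the minor -/
def SB (L : Submodule (ZMod 2) (V → K)) (e : V) (D : V → K) (Q : Finset (Finset V))
    (h : Finset V → V) (S : (V → K) → Finset V → Prop) (a : W Q → K) (Y : Finset (W Q)) : Prop :=
  ∃ u ∈ L, Lf D Q h u ∧ u e = 0 ∧ (a = fun w : W Q => u w) ∧
    S u (Y.map ⟨Subtype.val, Subtype.val_injective⟩)

omit [Fintype V] [DecidableEq V] in
theorem fn_add_self (u : V → K) : u + u = 0 := by
  funext v
  exact k_add_self _

omit [Fintype V] [DecidableEq V] in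
theorem eq_of_add_eq_zero' {u w : V → K} (h0 : u + w = 0) : u = w := by
  have h1 : u + w + w = w := by rw [h0, zero_add]
  rw [add_assoc, fn_add_self, add_zero] at h1
  exact h1

omit [Fintype V] in
theorem Lf.add {u w : V → K} (hu : Lf D Q h u) (hw : Lf D Q h w) : Lf D Q h (u + w) := by
  intro v hv
  rw [Pi.add_apply, kf_add_left, hu v hv, hw v hv, add_zero]

omit [Fintype V] in
theorem Lf.sub_le {u w : V → K} (hu : Lf D Q h u)
    (hw : ∀ v, v ∉ Set.range (Subtype.val : W Q → V) → w v = 0 ∨ w v = u v) : Lf D Q h w := by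
  intro v hv
  rcases hw v hv with h1 | h1
  · rw [h1, kf_zero_left]
  · rw [h1]; exact hu v hv

section
variable (hiso : ∀ u ∈ L, ∀ w ∈ L, form u w = 0) (hP : Parts L e D P) (hQ : Q ⊆ P)
  (hl : ∀ v, v ≠ e → (D v).1 = 1) (hh : ∀ M ∈ Q, h M ∈ M)
include hiso hP hQ hl hh

theorem lf_zero {u : V → K} (hu : u ∈ L) (hus : Lf D Q h u) (hue : u e = 0)
    (h0 : ∀ w : W Q, u w = 0) : u = 0 := by
  have hue1 : (u e).1 = 0 := by rw [hue]; rfl
  have hk : KD L D e u := by
    refine ⟨hu, ?_, Or.inl hue⟩
    intro v hv
    by_cases hvW : v ∈ Set.range (Subtype.val : W Q → V)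
    · obtain ⟨w, rfl⟩ := hvW
      exact Or.inl (h0 w)
    · exact le_D hiso hP hQ hl hh hu hue1 hus hvW
  funext v
  by_cases hvW : v ∈ Set.range (Subtype.val : W Q → V)
  · obtain ⟨w, rfl⟩ := hvW
    exact h0 w
  · obtain ⟨M, hM, hvM⟩ := (nmem_range_iff Q v).1 hvW
    have hve : v ≠ e := fun h1 => hP.nmem M (hQ hM) (h1 ▸ hvM)
    have hh0 : u (h M) = 0 := eq_zero_h hiso hP hQ hl hh hu hue1 hus hM
    rcases hP.union u hk M (hQ hM) with h1 | h1
    · exact absurd hh0 (Pool.Agent.H26.TR.mem_sup.1 (h1 (hh M hM))).2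
    · by_contra hne
      exact Finset.disjoint_left.1 h1 hvM (Pool.Agent.H26.TR.mem_sup.2 ⟨hve, hne⟩)

theorem lf_unique {u u' : V → K} (hu : u ∈ L) (hus : Lf D Q h u) (hue : u e = 0)
    (hu' : u' ∈ L) (hus' : Lf D Q h u') (hue' : u' e = 0)
    (h0 : ∀ w : W Q, u w = u' w) : u = u' := by
  apply eq_of_add_eq_zero'
  refine lf_zero hiso hP hQ hl hh (L.add_mem hu hu') (hus.add hus') ?_ ?_
  · rw [Pi.add_apply, hue, hue', add_zero]
  · intro w
    rw [Pi.add_apply, h0 w, k_add_self]

theorem irr_lift {u : V → K} (hu : u ∈ L) (hus : Lf D Q h u) (hue : u e = 0)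
    (hI : Irr (N L D Q h) (fun w : W Q => u w)) : Irr L u := by
  intro d hd hdu
  have hds : Lf D Q h d := hus.sub_le (fun v _ => hdu v)
  have hde : d e = 0 := by
    rcases hdu e with h1 | h1
    · exact h1
    · rw [h1, hue]
  rcases hI (fun w : W Q => d w) ⟨d, hd, hds, rfl⟩ (fun w => hdu w) with h1 | h1
  · left
    exact lf_zero hiso hP hQ hl hh hd hds hde (fun w => congrFun h1 w)
  · right
    exact lf_unique hiso hP hQ hl hh hd hds hde hu hus hue (fun w => congrFun h1 w)

/-- a splitting of a lift is a splitting of the word -/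
theorem splits_lift {u : V → K} (hus : Lf D Q h u) (hue : u e = 0)
    {g : V} (hs : Splits L u g) : ∃ g', Splits (N L D Q h) (fun w : W Q => u w) g' := by
  obtain ⟨c₁, hc₁, c₂, hc₂, hsum, hg1, hg2, hd⟩ := hs
  have hv1 : ∀ v, v ≠ g → c₁ v = 0 ∨ c₁ v = u v := by
    intro v hv
    rcases hd v hv with h1 | h1
    · exact Or.inl h1
    · right
      rw [← hsum, Pi.add_apply, h1, add_zero]
  have hv2 : ∀ v, v ≠ g → c₂ v = 0 ∨ c₂ v = u v := by
    intro v hv
    rcases hd v hv with h1 | h1
    · right
      rw [← hsum, Pi.add_apply, h1, zero_add]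
    · exact Or.inl h1
  have hgW : g ∈ Set.range (Subtype.val : W Q → V) := by
    by_contra hgW
    obtain ⟨M, hM, hgM⟩ := (nmem_range_iff Q g).1 hgW
    have hge : g ≠ e := fun h0 => hP.nmem M (hQ hM) (h0 ▸ hgM)
    have key : ∀ c : V → K, c ∈ L → c g = z → (∀ v, v ≠ g → c v = 0 ∨ c v = u v) →
        g ≠ h M ∧ c (h M) ≠ 0 := by
      intro c hc hcg hcv
      have hce : c e = 0 := by
        rcases hcv e (Ne.symm hge) with h1 | h1
        · exact h1
        · rw [h1, hue]
      have h0 := hiso c hc _ (hP.word M (hQ hM))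
      unfold form at h0
      rw [← Finset.add_sum_erase _ _ (Finset.mem_univ g)] at h0
      have hg3 : kf (c g) (pw D e M g) = 1 := by
        unfold pw
        rw [if_neg hge, if_pos hgM, hcg, kf_z_left]
        exact hl g hge
      rw [hg3] at h0
      by_contra hcon
      have hrest : ∑ x ∈ Finset.univ.erase g, kf (c x) (pw D e M x) = 0 := by
        apply Finset.sum_eq_zero
        intro x hx
        have hxg : x ≠ g := Finset.ne_of_mem_erase hx
        by_cases hxe : x = e
        · rw [hxe, hce, kf_zero_left]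
        · unfold pw
          rw [if_neg hxe]
          by_cases hxM : x ∈ M
          · rw [if_pos hxM]
            by_cases hxh : x = h M
            · have hc0 : c (h M) = 0 := by
                by_contra hne
                apply hcon
                exact ⟨fun h1 => hxg (hxh.trans h1.symm), hne⟩
              rw [hxh, hc0, kf_zero_left]
            · rcases hcv x hxg with h1 | h1
              · rw [h1, kf_zero_left]
              · rw [h1, ← sg_ne hP hQ hh hM hxM hxh]
                exact hus x ((nmem_range_iff Q x).2 ⟨M, hM, hxM⟩)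
          · rw [if_neg hxM, kf_zero_right]
      rw [hrest] at h0
      exact absurd h0 (by decide)
    obtain ⟨h1, h2⟩ := key c₁ hc₁ hg1 hv1
    obtain ⟨_, h3⟩ := key c₂ hc₂ hg2 hv2
    rcases hd (h M) (Ne.symm h1) with h4 | h4
    · exact h2 h4
    · exact h3 h4
  obtain ⟨g', rfl⟩ := hgW
  have hin : ∀ c : V → K, (∀ v, v ≠ (g' : V) → c v = 0 ∨ c v = u v) → Lf D Q h c := by
    intro c hc v hv
    have hne : v ≠ (g' : V) := by
      rintro rfl
      exact hv ⟨g', rfl⟩
    rcases hc v hne with h1 | h1
    · rw [h1, kf_zero_left]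
    · rw [h1]; exact hus v hv
  refine ⟨g', fun w => c₁ w, ⟨c₁, hc₁, hin c₁ hv1, rfl⟩, fun w => c₂ w,
    ⟨c₂, hc₂, hin c₂ hv2, rfl⟩, ?_, hg1, hg2, ?_⟩
  · funext w
    exact congrFun hsum w
  · intro w hw
    exact hd w (fun h0 => hw (Subtype.ext h0))

omit hiso hl in
theorem lf_of {c : V → K}
    (hc : ∀ x, x ∉ Set.range (Subtype.val : W Q → V) → c x = 0 ∨ c x = D x)
    (hch : ∀ M' ∈ Q, c (h M') = 0) : Lf D Q h c := by
  intro x hx
  obtain ⟨M', hM', hxM'⟩ := (nmem_range_iff Q x).1 hx
  by_cases hxh : x = h M'
  · rw [hxh, hch M' hM', kf_zero_left]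
  · rcases hc x hx with h1 | h1
    · rw [h1, kf_zero_left]
    · rw [h1, sg_ne hP hQ hh hM' hxM' hxh, kf_self]

/-- **The side interface is inherited by the minors at the root.** -/
theorem rsides_N (heW : ∀ M ∈ Q, e ∉ M) {S : (V → K) → Finset V → Prop} (hS : RSides L e S) :
    RSides (N L D Q h) (⟨e, heW⟩ : W Q) (SB L e D Q h S) := by
  classical
  have hne : ∀ v, v ∉ Set.range (Subtype.val : W Q → V) → v ≠ e := by
    intro v hv h0
    apply hv
    rw [h0]
    exact ⟨⟨e, heW⟩, rfl⟩
  have hmap : ∀ (Y : Finset (W Q)) (v : V),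
      v ∈ Y.map ⟨Subtype.val, Subtype.val_injective⟩ → v ∈ Set.range (Subtype.val : W Q → V) := by
    intro Y v hv
    obtain ⟨w, _, hw⟩ := Finset.mem_map.1 hv
    exact ⟨w, hw⟩
  have hmem : ∀ (Y : Finset (W Q)) (w : W Q),
      (w : V) ∈ Y.map ⟨Subtype.val, Subtype.val_injective⟩ ↔ w ∈ Y := by
    intro Y w
    constructor
    · intro hw
      obtain ⟨w', hw', hww⟩ := Finset.mem_map.1 hw
      have : w' = w := Subtype.ext hww
      rw [← this]
      exact hw'
    · intro hw
      exact Finset.mem_map.2 ⟨w, hw, rfl⟩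
  have hzf : ∀ u : V → K, Lf D Q h u → ZFree (fun w : W Q => u w) → ZFree u := by
    intro u hus haz v
    by_cases hvW : v ∈ Set.range (Subtype.val : W Q → V)
    · obtain ⟨w, rfl⟩ := hvW
      exact haz w
    · have hve := hne v hvW
      have h1 := hus v hvW
      rw [kf_eq_zero_iff _ _ (sg_ne_zero hl hve)] at h1
      intro h2
      rcases h1 with h1 | h1
      · rw [h2] at h1; exact absurd h1 (by decide)
      · have h3 := sg_fst (Q := Q) (h := h) hl hve
        rw [← h1, h2] at h3
        exact absurd h3 (by decide)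
  have hle : ∀ u κ : V → K, Lf D Q h u → Lf D Q h κ →
      (∀ w : W Q, u w ≠ 0 → κ w = 0 ∨ κ w = u w) → ∀ v, u v ≠ 0 → κ v = 0 ∨ κ v = u v := by
    intro u κ hus hκs hk v hv
    by_cases hvW : v ∈ Set.range (Subtype.val : W Q → V)
    · obtain ⟨w, rfl⟩ := hvW
      exact hk w hv
    · have hve := hne v hvW
      have h1 := hus v hvW
      have h2 := hκs v hvW
      rw [kf_eq_zero_iff _ _ (sg_ne_zero hl hve)] at h1 h2
      rcases h1 with h1 | h1
      · exact absurd h1 hv
      · rw [h1]
        exact h2
  have hpart : ∀ (u : V → K) (Y : Finset (W Q)) (κ' : V → K), Lf D Q h u →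
      (∀ v, u v = 0 → v ∉ Y.map ⟨Subtype.val, Subtype.val_injective⟩ → κ' v = 0) →
      (∀ v, u v ≠ 0 → κ' v = 0 ∨ κ' v = u v) → Lf D Q h κ' := by
    intro u Y κ' hus h1 h2
    refine hus.sub_le ?_
    intro v hv
    by_cases huv : u v = 0
    · exact Or.inl (h1 v huv (fun h0 => hv (hmap Y v h0)))
    · exact h2 v huv
  refine ⟨?_, ?_, ?_, ?_, ?_⟩
  · rintro a Y ⟨u, hu, hus, hue, rfl, hY⟩ he
    exact hS.root u _ hY ((hmem Y ⟨e, heW⟩).2 he)
  · rintro a Y ⟨u, hu, hus, hue, rfl, hY⟩ w hw
    exact hS.zero u _ hY w ((hmem Y w).2 hw)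
  · rintro a ⟨u, hu, hus, rfl⟩ haz hae ha0 hI
    have hue : u e = 0 := hae
    have hue1 : (u e).1 = 0 := by rw [hue]; rfl
    have huz : ZFree u := hzf u hus haz
    have hu0 : u ≠ 0 := by
      rintro rfl
      exact ha0 rfl
    have hIL := irr_lift hiso hP hQ hl hh hu hus hue hI
    rcases hS.ex u hu huz hue hu0 hIL with ⟨g, hg⟩ | ⟨Y, hYne, hY⟩
    · exact Or.inl (splits_lift hiso hP hQ hl hh hus hue hg)
    · by_cases hsub : ∀ v ∈ Y, v ∈ Set.range (Subtype.val : W Q → V)
      · right
        have hYe : (Finset.univ.filter (fun w : W Q => (w : V) ∈ Y)).map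
            ⟨Subtype.val, Subtype.val_injective⟩ = Y := by
          ext v
          constructor
          · intro hv
            obtain ⟨w, hw, rfl⟩ := Finset.mem_map.1 hv
            exact (Finset.mem_filter.1 hw).2
          · intro hv
            obtain ⟨w, rfl⟩ := hsub v hv
            exact (hmem _ w).2 (Finset.mem_filter.2 ⟨Finset.mem_univ _, hv⟩)
        refine ⟨Finset.univ.filter (fun w : W Q => (w : V) ∈ Y), ?_, u, hu, hus, hue, rfl, ?_⟩
        · obtain ⟨v, hv⟩ := hYne
          obtain ⟨w, rfl⟩ := hsub v hv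
          exact ⟨w, Finset.mem_filter.2 ⟨Finset.mem_univ _, hv⟩⟩
        · rw [hYe]
          exact hY
      · push Not at hsub
        obtain ⟨v, hvY, hvW⟩ := hsub
        obtain ⟨M, hM, hvM⟩ := (nmem_range_iff Q v).1 hvW
        have hve : v ≠ e := hne v hvW
        have hple : ∀ x, u x ≠ 0 → pw D e M x = 0 ∨ pw D e M x = u x := by
          intro x hx
          unfold pw
          by_cases hxe : x = e
          · rw [hxe] at hx
            exact absurd hue hx
          · rw [if_neg hxe]
            by_cases hxM : x ∈ M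
            · right
              rw [if_pos hxM]
              have hxW : x ∉ Set.range (Subtype.val : W Q → V) :=
                (nmem_range_iff Q x).2 ⟨M, hM, hxM⟩
              rcases le_D hiso hP hQ hl hh hu hue1 hus hxW with h1 | h1
              · exact absurd h1 hx
              · exact h1.symm
            · left; rw [if_neg hxM]
        obtain ⟨κ, hκ, hκY, hκ0, hκu⟩ := hS.part u Y hY _ (hP.word M (hQ hM)) hple
        have hκe : κ e = 0 := hκ0 e hue (hS.root u Y hY)
        have hκv : κ v = D v := by
          rw [hκY v hvY]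
          unfold pw
          rw [if_neg hve, if_pos hvM]
        have hDv : D v ≠ 0 := by
          intro h0
          have := hl v hve
          rw [h0] at this
          exact absurd this (by decide)
        have hκr : ∀ w : W Q, κ w = 0 ∨ κ w = u w := by
          intro w
          by_cases huw : u w = 0
          · left
            by_cases hwY : (w : V) ∈ Y
            · rw [hκY w hwY]
              unfold pw
              by_cases hwe : (w : V) = e
              · rw [hwe] at hwY
                exact absurd hwY (hS.root u Y hY)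
              · rw [if_neg hwe, if_neg (w.2 M hM)]
            · exact hκ0 w huw hwY
          · exact hκu w huw
        have hκD : ∀ x, x ∉ Set.range (Subtype.val : W Q → V) → κ x = 0 ∨ κ x = D x := by
          intro x hx
          by_cases hux : u x = 0
          · by_cases hxY : x ∈ Y
            · rw [hκY x hxY]
              unfold pw
              rw [if_neg (hne x hx)]
              by_cases hxM : x ∈ M
              · right; rw [if_pos hxM]
              · left; rw [if_neg hxM]
            · exact Or.inl (hκ0 x hux hxY)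
          · rcases hκu x hux with h1 | h1
            · exact Or.inl h1
            · rcases le_D hiso hP hQ hl hh hu hue1 hus hx with h2 | h2
              · exact absurd h2 hux
              · right; rw [h1, h2]
        have hpM : ∀ M' ∈ Q, M' ≠ M → pw D e M (h M') = 0 := by
          intro M' hM' hMM
          unfold pw
          have h1 : h M' ≠ e := fun h0 => hP.nmem M' (hQ hM') (h0 ▸ hh M' hM')
          have h2 : h M' ∉ M := fun h0 =>
            Finset.disjoint_left.1 (hP.disj M' (hQ hM') M (hQ hM) hMM) (hh M' hM') h0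
          rw [if_neg h1, if_neg h2]
        have hκh : ∀ M' ∈ Q, M' ≠ M → κ (h M') = 0 := by
          intro M' hM' hMM
          have huh : u (h M') = 0 := eq_zero_h hiso hP hQ hl hh hu hue1 hus hM'
          by_cases hY' : h M' ∈ Y
          · rw [hκY _ hY']
            exact hpM M' hM' hMM
          · exact hκ0 _ huh hY'
        by_cases hκM : κ (h M) = 0
        · exfalso
          have hκs : Lf D Q h κ := by
            refine lf_of hP hQ hh hκD ?_
            intro M' hM'
            by_cases hMM : M' = M
            · rw [hMM]; exact hκM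
            · exact hκh M' hM' hMM
          rcases hI (fun w : W Q => κ w) ⟨κ, hκ, hκs, rfl⟩ hκr with h1 | h1
          · have h2 := lf_zero hiso hP hQ hl hh hκ hκs hκe (fun w => congrFun h1 w)
            apply hDv
            rw [← hκv, h2]
            rfl
          · have h2 := lf_unique hiso hP hQ hl hh hκ hκs hκe hu hus hue (fun w => congrFun h1 w)
            apply hDv
            rw [← hκv, h2]
            exact hS.zero u Y hY v hvY
        · left
          have hhM : h M ∉ Set.range (Subtype.val : W Q → V) :=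
            (nmem_range_iff Q _).2 ⟨M, hM, hh M hM⟩
          have hκM' : κ (h M) = D (h M) := by
            rcases hκD _ hhM with h1 | h1
            · exact absurd h1 hκM
            · exact h1
          have hls : Lf D Q h (κ + pw D e M) := by
            refine lf_of hP hQ hh ?_ ?_
            · intro x hx
              have hpx : pw D e M x = 0 ∨ pw D e M x = D x := by
                unfold pw
                rw [if_neg (hne x hx)]
                by_cases hxM : x ∈ M
                · right; rw [if_pos hxM]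
                · left; rw [if_neg hxM]
              rw [Pi.add_apply]
              rcases hκD x hx with h1 | h1 <;> rcases hpx with h2 | h2
              · left; rw [h1, h2, add_zero]
              · right; rw [h1, h2, zero_add]
              · right; rw [h1, h2, add_zero]
              · left; rw [h1, h2, k_add_self]
            · intro M' hM'
              rw [Pi.add_apply]
              by_cases hMM : M' = M
              · rw [hMM, hκM']
                have : pw D e M (h M) = D (h M) := by
                  unfold pw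
                  rw [if_neg (hne _ hhM), if_pos (hh M hM)]
                rw [this, k_add_self]
              · rw [hκh M' hM' hMM, hpM M' hM' hMM, add_zero]
          have hpe : pw D e M e = z := by
            unfold pw
            rw [if_pos rfl]
          have hpw0 : ∀ w : W Q, (w : V) ≠ e → pw D e M w = 0 := by
            intro w hwe
            unfold pw
            rw [if_neg hwe, if_neg (w.2 M hM)]
          refine ⟨⟨e, heW⟩, fun w => (κ + pw D e M) w,
            ⟨κ + pw D e M, L.add_mem hκ (hP.word M (hQ hM)), hls, rfl⟩,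
            fun w => (κ + pw D e M + u) w,
            ⟨κ + pw D e M + u, L.add_mem (L.add_mem hκ (hP.word M (hQ hM))) hu, hls.add hus, rfl⟩,
            ?_, ?_, ?_, ?_⟩
          · funext w
            have h3 : (κ + pw D e M) w + ((κ + pw D e M) w + u w) = u w := by
              rw [← add_assoc, k_add_self, zero_add]
            exact h3
          · show κ e + pw D e M e = z
            rw [hκe, hpe, zero_add]
          · show κ e + pw D e M e + u e = z
            rw [hκe, hpe, hue, zero_add, add_zero]
          · intro w hw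
            have hwe : (w : V) ≠ e := fun h0 => hw (Subtype.ext h0)
            show κ w + pw D e M w = 0 ∨ κ w + pw D e M w + u w = 0
            rw [hpw0 w hwe, add_zero]
            rcases hκr w with h1 | h1
            · exact Or.inl h1
            · right
              rw [h1, k_add_self]
  · rintro a Y ⟨u, hu, hus, hue, rfl, hY⟩ k ⟨κ, hκ, hκs, rfl⟩ hk
    obtain ⟨κ', hκ', h1, h2, h3⟩ := hS.part u _ hY κ hκ (hle u κ hus hκs hk)
    refine ⟨fun w => κ' w, ⟨κ', hκ', hpart u Y κ' hus h2 h3, rfl⟩, ?_, ?_, ?_⟩
    · intro w hw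
      exact h1 w ((hmem Y w).2 hw)
    · intro w hw hwY
      exact h2 w hw (fun h0 => hwY ((hmem Y w).1 h0))
    · intro w hw
      exact h3 w hw
  · rintro a Y ⟨u, hu, hus, hue, rfl, hY⟩ hIa k ⟨κ, hκ, hκs, rfl⟩ hkz hk0 hIk hku hkY
    have hue1 : (u e).1 = 0 := by rw [hue]; rfl
    have heY : (⟨e, heW⟩ : W Q) ∉ Y := fun h0 => hS.root u _ hY ((hmem Y _).2 h0)
    have hκe : κ e = 0 := hkY ⟨e, heW⟩ hue heY
    have hκs1 : Lf D Q h κ := hκs
    have hIL := irr_lift hiso hP hQ hl hh hu hus hue hIa
    have hkL := irr_lift hiso hP hQ hl hh hκ hκs hκe hIk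
    have hκu := hle u κ hus hκs hku
    obtain ⟨κ', hκ', hκY, hκ0, hκu'⟩ := hS.part u _ hY κ hκ hκu
    have hκs' : Lf D Q h κ' := hpart u Y κ' hus hκ0 hκu'
    have hκ'e : κ' e = 0 := hκ0 e hue (hS.root u _ hY)
    have hd : ∀ w : W Q, (κ + κ') w = 0 ∨ (κ + κ') w = u w := by
      intro w
      rw [Pi.add_apply]
      by_cases huw : u w = 0
      · left
        by_cases hwY : w ∈ Y
        · rw [hκY w ((hmem Y w).2 hwY), k_add_self]
        · have h1 : κ w = 0 := hkY w huw hwY
          rw [h1, hκ0 w huw (fun h0 => hwY ((hmem Y w).1 h0)), add_zero]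
      · rcases hκu w huw with h1 | h1 <;> rcases hκu' w huw with h2 | h2
        · left; rw [h1, h2, add_zero]
        · right; rw [h1, h2, zero_add]
        · right; rw [h1, h2, add_zero]
        · left; rw [h1, h2, k_add_self]
    have hκz : ∀ v, u v = 0 → v ∉ Y.map ⟨Subtype.val, Subtype.val_injective⟩ → κ v = 0 := by
      rcases hIa (fun w : W Q => (κ + κ') w)
        ⟨κ + κ', L.add_mem hκ hκ', hκs1.add hκs', rfl⟩ hd with h1 | h1
      · have h2 : κ = κ' := by
          apply eq_of_add_eq_zero'
          refine lf_zero hiso hP hQ hl hh (L.add_mem hκ hκ') (hκs1.add hκs') ?_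
            (fun w => congrFun h1 w)
          rw [Pi.add_apply, hκe, hκ'e, add_zero]
        intro v hv1 hv2
        rw [h2]
        exact hκ0 v hv1 hv2
      · have h2 : κ + κ' = u := by
          refine lf_unique hiso hP hQ hl hh (L.add_mem hκ hκ') (hκs1.add hκs') ?_ hu hus hue
            (fun w => congrFun h1 w)
          rw [Pi.add_apply, hκe, hκ'e, add_zero]
        intro v hv1 hv2
        have h3 := congrFun h2 v
        rw [Pi.add_apply, hκ0 v hv1 hv2, add_zero, hv1] at h3
        exact h3
    have hκ0' : κ ≠ 0 := by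
      rintro rfl
      exact hk0 rfl
    rcases hS.mono u _ hY hIL κ hκ (hzf κ hκs hkz) hκ0' hkL hκu hκz with
      ⟨g, hg⟩ | ⟨Y', hY'sub, hY'ne, hY'⟩
    · exact Or.inl (splits_lift hiso hP hQ hl hh hκs hκe hg)
    · right
      have hYe : (Y.filter (fun w : W Q => (w : V) ∈ Y')).map
          ⟨Subtype.val, Subtype.val_injective⟩ = Y' := by
        ext v
        constructor
        · intro hv
          obtain ⟨w, hw, rfl⟩ := Finset.mem_map.1 hv
          exact (Finset.mem_filter.1 hw).2
        · intro hv
          obtain ⟨w, rfl⟩ := hmap Y v (hY'sub hv)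
          exact (hmem _ w).2 (Finset.mem_filter.2 ⟨(hmem Y w).1 (hY'sub hv), hv⟩)
      refine ⟨Y.filter (fun w : W Q => (w : V) ∈ Y'), Finset.filter_subset _ _, ?_,
        κ, hκ, hκs, hκe, rfl, ?_⟩
      · obtain ⟨v, hv⟩ := hY'ne
        obtain ⟨w, rfl⟩ := hmap Y v (hY'sub hv)
        exact ⟨w, Finset.mem_filter.2 ⟨(hmem Y w).1 (hY'sub hv), hv⟩⟩
      · rw [hYe]
        exact hY'

end

end Pool.Agent.H69.Q
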